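import Mathlib
import Pool.Agent.H394.LieAsm
import Pool.Agent.H177.LIE.POL
import Pool.Graph.R_seed8.Results.MP_a9fd20_al.UpperBound

set_option autoImplicit false

namespace Pool.Agent.Results.MP_a9fd20_al.LowerBound

open Pool.Agent.Helper884.LieId

attribute [local instance 100] LieRing.ofAssociativeRing

/-- `sl_n(K)`, `n ≥ 3`, has no Lie identity of degree at most `2n + 1`, so `m_n ≥ 2n + 2`;
and `m_3 = 8`. -/
theorem result (K : Type) [Field K] [CharZero K] :
    (∀ n : ℕ, 3 ≤ n → 2 * n + 2 ≤ minDeg K n) ∧ minDeg K 3 = 8 := by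
  have low : ∀ n : ℕ, 3 ≤ n → 2 * n + 2 ≤ minDeg K n := by
    intro n hn
    obtain ⟨m, rfl⟩ := Nat.exists_eq_add_of_le' hn
    have hne : {d | ∃ f ∈ DegLE K d,
        IsLieIdentity K (LieAlgebra.SpecialLinear.sl (Fin (m + 3)) K) f}.Nonempty := by
      obtain ⟨⟨f, hf, -, hf2⟩, -⟩ :=
        Pool.Agent.Results.MP_a9fd20_al.UpperBound.result K (m + 3) (by omega)
      refine ⟨4 * (m + 3) - 4, f, ?_, hf2⟩
      refine Submodule.span_mono ?_ hf
      intro x hx
      exact ⟨_, le_rfl, hx⟩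
    apply le_csInf hne
    rintro d ⟨f, hf, hf0, hf1⟩
    by_contra hd
    apply hf0
    refine Pool.Agent.H394.LieB.no_identity Pool.Agent.H177.LIE.t_POL m f ?_ hf1
    refine Submodule.span_mono ?_ hf
    rintro x ⟨e, he, hx⟩
    exact ⟨e, by omega, hx⟩
  refine ⟨low, le_antisymm ?_ (low 3 le_rfl)⟩
  exact (Pool.Agent.Results.MP_a9fd20_al.UpperBound.result K 3 le_rfl).2

end Pool.Agent.Results.MP_a9fd20_al.LowerBound
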